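import Mathlib

namespace Pool.Agent.Results.MP_aec1ed_pr.Valuation

open Finset

/-- finitely supported probability measures on `ℕ`. -/
def IsProb (μ : ℕ →₀ ℝ) : Prop := (∀ s, 0 ≤ μ s) ∧ ∑ s ∈ μ.support, μ s = 1

/-- `ρ = μ * ν`. -/
def IsConv (μ ν ρ : ℕ →₀ ℝ) : Prop := ∀ n, ρ n = ∑ p ∈ antidiagonal n, μ p.1 * ν p.2

lemma exv : ∃ B : ValuationSubring ℝ, B.valuation 2 < 1 := by
  obtain ⟨B, -, h⟩ := Ideal.image_subset_nonunits_valuationSubring (A := (⊥ : Subring ℝ))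
    (Ideal.span {2}) (by
      rw [Ne, Ideal.span_singleton_eq_top, isUnit_iff_exists_inv]
      rintro ⟨⟨_, a, rfl⟩, ha⟩
      have : (2 : ℝ) * a = 1 := congrArg Subtype.val ha
      have : 2 * a = 1 := by exact_mod_cast this
      omega)
  exact ⟨B, h ⟨2, Ideal.subset_span rfl, rfl⟩⟩

variable {Γ : Type*} [LinearOrderedCommGroupWithZero Γ] (v : Valuation ℝ Γ)

def Lead (μ : ℕ →₀ ℝ) (i : ℕ) : Prop :=
  μ i ≠ 0 ∧ (∀ j, v (μ j) ≤ v (μ i)) ∧ ∀ j < i, v (μ j) < v (μ i)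

lemma uniq {μ : ℕ →₀ ℝ} {i j : ℕ} (hi : Lead v μ i) (hj : Lead v μ j) : i = j := by
  by_contra h
  rcases Nat.lt_or_gt_of_ne h with h | h
  · exact (hj.2.2 i h).not_ge (hi.2.1 j)
  · exact (hi.2.2 j h).not_ge (hj.2.1 i)

lemma ex {μ : ℕ →₀ ℝ} (h : IsProb μ) : ∃ i, Lead v μ i := by
  classical
  have hne : μ.support.Nonempty := nonempty_of_sum_ne_zero (h.2 ▸ one_ne_zero)
  obtain ⟨i, hi, hm⟩ := exists_max_image _ (fun j => v (μ j)) hne
  have hx : ∃ i, μ i ≠ 0 ∧ ∀ j, v (μ j) ≤ v (μ i) := ⟨i, Finsupp.mem_support_iff.1 hi, fun j => by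
    by_cases hj : j ∈ μ.support
    · exact hm j hj
    · simp [Finsupp.notMem_support_iff.1 hj]⟩
  refine ⟨Nat.find hx, (Nat.find_spec hx).1, (Nat.find_spec hx).2, fun j hj => ?_⟩
  by_contra hh
  refine Nat.find_min hx hj ⟨fun h0 => hh ?_, fun k => ((Nat.find_spec hx).2 k).trans (not_lt.1 hh)⟩
  rw [h0, map_zero]
  exact v.pos_iff.2 (Nat.find_spec hx).1

lemma add {μ ν ρ : ℕ →₀ ℝ} (h : IsConv μ ν ρ) {i j : ℕ} (hi : Lead v μ i) (hj : Lead v ν j) :
    Lead v ρ (i + j) := by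
  have pi := v.pos_iff.2 hi.1
  have pj := v.pos_iff.2 hj.1
  have lt : ∀ a b, a < i ∨ b < j → v (μ a * ν b) < v (μ i * ν j) := fun a b hab => by
    rw [map_mul, map_mul]
    rcases hab with h | h
    · exact mul_lt_mul_of_lt_of_le_of_nonneg_of_pos (hi.2.2 a h) (hj.2.1 b) zero_le pj
    · exact mul_lt_mul_of_le_of_lt_of_nonneg_of_pos (hi.2.1 a) (hj.2.2 b h) zero_le pi
  have e : v (ρ (i + j)) = v (μ i * ν j) := by
    rw [h]
    refine v.map_sum_eq_of_lt (j := (i, j)) (by simp) fun p hp => lt _ _ ?_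
    simp only [mem_sdiff, HasAntidiagonal.mem_antidiagonal, mem_singleton, Prod.ext_iff] at hp
    omega
  have p0 : 0 < v (μ i * ν j) := by rw [map_mul]; exact mul_pos pi pj
  refine ⟨v.pos_iff.1 (e ▸ p0), fun k => ?_, fun k hk => ?_⟩
  · rw [e, h]
    exact v.map_sum_le fun p _ => by
      rw [map_mul, map_mul]; exact mul_le_mul' (hi.2.1 _) (hj.2.1 _)
  · rw [e, h]
    exact v.map_sum_lt' p0 fun p hp => lt _ _ (by rw [HasAntidiagonal.mem_antidiagonal] at hp; omega)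

noncomputable def two (a b : ℝ) : ℕ →₀ ℝ := Finsupp.single 0 a + Finsupp.single 1 b

lemma two_supp {a b : ℝ} (ha : a ≠ 0) (hb : b ≠ 0) : (two a b).support = {0, 1} := by
  ext n; rcases n with _ | _ | n <;> simp [two, ha, hb]

lemma two_prob {a b : ℝ} (ha : 0 < a) (hb : 0 < b) (h : a + b = 1) : IsProb (two a b) :=
  ⟨fun n => by rcases n with _ | _ | n <;> simp [two, ha.le, hb.le], by
    rw [two_supp ha.ne' hb.ne']; simpa [two] using h⟩

theorem result : ∃ Ψ : (ℕ →₀ ℝ) → (ℕ →₀ ℝ), (∀ μ, IsProb μ → IsProb (Ψ μ)) ∧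
    (∀ μ ν ρ, IsProb μ → IsProb ν → IsConv μ ν ρ → IsConv (Ψ μ) (Ψ ν) (Ψ ρ)) ∧
    (∀ μ, IsProb μ → (Ψ μ).support ⊆ μ.support) ∧
    (∀ β : ℝ, ∃ μ, IsProb μ ∧ ∃ s, Ψ μ s ≠
      μ s * Real.exp (-β * s) / ∑ t ∈ μ.support, μ t * Real.exp (-β * t)) ∧
    (∃ μ, IsProb μ ∧ ∀ m : ℕ, μ.support.max = m → Ψ μ ≠ Finsupp.single m 1) ∧
    ∃ μ, IsProb μ ∧ ∀ m : ℕ, μ.support.min = m → Ψ μ ≠ Finsupp.single m 1 := by
  obtain ⟨B, hB⟩ := exv
  let v := B.valuation
  let f : (ℕ →₀ ℝ) → ℕ := fun μ => Classical.epsilon (Lead v μ)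
  have hf : ∀ μ i, Lead v μ i → f μ = i := fun μ i h => uniq v (Classical.epsilon_spec ⟨i, h⟩) h
  have hl : ∀ μ, IsProb μ → Lead v μ (f μ) := fun μ h => Classical.epsilon_spec (ex v h)
  have h3 : v (2 / 3) < v (1 / 3) := by
    rw [show (2 / 3 : ℝ) = 2 * (1 / 3) by norm_num, map_mul]
    exact mul_lt_of_lt_one_left (v.pos_iff.2 (by norm_num)) hB
  have p1 := two_prob (a := 1 / 3) (b := 2 / 3) (by norm_num) (by norm_num) (by norm_num)
  have p2 := two_prob (a := 2 / 3) (b := 1 / 3) (by norm_num) (by norm_num) (by norm_num)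
  have f1 : f (two (1 / 3) (2 / 3)) = 0 := hf _ _ ⟨by simp [two], fun j => by
    rcases j with _ | _ | j
    · rfl
    · simpa [two] using h3.le
    · simp [two], fun j hj => by omega⟩
  have f2 : f (two (2 / 3) (1 / 3)) = 1 := hf _ _ ⟨by simp [two], fun j => by
    rcases j with _ | _ | j
    · simpa [two] using h3.le
    · rfl
    · simp [two], fun j hj => by
      obtain rfl : j = 0 := by omega
      simpa [two] using h3⟩
  refine ⟨fun μ => Finsupp.single (f μ) 1, fun μ _ => ⟨fun s => ?_, ?_⟩, fun μ ν ρ h1 h2 h n => ?_,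
    fun μ h => ?_, fun β => ⟨_, p1, 1, ?_⟩, ⟨_, p1, fun m hm e => ?_⟩, _, p2, fun m hm e => ?_⟩
  · rw [Finsupp.single_apply]; split_ifs <;> norm_num
  · rw [Finsupp.support_single _ one_ne_zero]; simp
  · beta_reduce
    rw [hf ρ _ (add v h (hl _ h1) (hl _ h2))]
    have e : ∀ p : ℕ × ℕ, Finsupp.single (f μ) (1 : ℝ) p.1 * Finsupp.single (f ν) (1 : ℝ) p.2 =
        if (f μ, f ν) = p then 1 else 0 := by
      rintro ⟨a, b⟩
      simp only [Finsupp.single_apply, Prod.mk.injEq]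
      split_ifs <;> simp_all
    simp only [e]
    simp only [sum_ite_eq, HasAntidiagonal.mem_antidiagonal, Finsupp.single_apply]
  · rw [Finsupp.support_single _ one_ne_zero]; simpa using (hl μ h).1
  · beta_reduce
    rw [f1, two_supp (by norm_num) (by norm_num)]
    refine ne_of_lt ?_
    simp [two]; positivity
  · rw [two_supp (by norm_num) (by norm_num)] at hm
    have := Finsupp.single_left_injective one_ne_zero e
    rw [← this, f1] at hm
    exact absurd hm (by decide)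
  · rw [two_supp (by norm_num) (by norm_num)] at hm
    have := Finsupp.single_left_injective one_ne_zero e
    rw [← this, f2] at hm
    exact absurd hm (by decide)

end Pool.Agent.Results.MP_aec1ed_pr.Valuation
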